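import Pool.Agent.WIR.StmtsE

/-! Squad WIR, row APR. -/

namespace Pool.Agent.WIR.H94

open Pool.Agent.WIR

theorem apr : CodStmt → AprStmt := by
  intro hcod l k x
  unfold eP
  rw [hcod (k + l) l (x.appr l + 3 ^ l) (Nat.add_pos_right _ (by positivity))]
  congr 1
  have h1 : ((3 ^ l : ℕ) : ZMod (3 ^ l)) = 0 := ZMod.natCast_self _
  rw [Nat.cast_add, h1, add_zero]
  rfl

end Pool.Agent.WIR.H94
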