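import Pool.Agent.WIR.StmtsB

/-! Squad WIR, row CNE. -/

namespace Pool.Agent.WIR.H94

open scoped BigOperators
open Pool.Agent.WIR

theorem Kh_sum (hM : MonStmt) (B : ℕ) (n : ℕ) (f : ℕ → ℕ → ℝ) (l : ℕ) :
    Kh B (fun x => ∑ i ∈ Finset.range n, f i x) l = ∑ i ∈ Finset.range n, Kh B (f i) l := by
  induction n with
  | zero =>
    simp [Kh]
  | succ n ih =>
    have h1 := (hM.2.1 B (fun x => ∑ i ∈ Finset.range n, f i x) (f n) 1 l).2
    simp only [one_mul] at h1
    rw [Finset.sum_range_succ, ← ih, ← h1]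
    congr 1
    funext x
    rw [Finset.sum_range_succ]

theorem cne : MonStmt → CneStmt := by
  classical
  intro hM B β P
  induction P with
  | zero =>
    intro i j l
    simp [Cn]
  | succ P ih =>
    intro i j l
    rw [Finset.sum_range_succ', Cn, add_comm]
    have h1 : (fun x => Cn B β P (i + 1) (j + 1) x) = fun x => ∑ i' ∈ Finset.range P,
        (Kh B)^[i'] (fun x => if β (i + 1 + i') (j + 1 + i') x ∧ x ≤ B then (1 : ℝ) else 0) x := by
      funext x
      exact ih (i + 1) (j + 1) x
    rw [h1, Kh_sum hM]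
    congr 1
    refine Finset.sum_congr rfl fun i' _ => ?_
    rw [Function.iterate_succ', Function.comp_apply]
    have h2 : i + 1 + i' = i + (i' + 1) := by ring
    have h3 : j + 1 + i' = j + (i' + 1) := by ring
    rw [h2, h3]

end Pool.Agent.WIR.H94
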