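import Pool.Agent.WIR.StmtsE

/-! Squad WIR, row WIN: functional inequality for the counts. -/

namespace Pool.Agent.WIR.H94

open scoped BigOperators
open Pool.Agent.WIR

/-- the shifted word -/
def shw (j : ℕ) (O : Finset ℕ) : Finset ℕ := insert j (O.map (addRightEmbedding j))

theorem notMem_shw (j : ℕ) (O : Finset ℕ) (hO : ∀ p ∈ O, 1 ≤ p) :
    j ∉ O.map (addRightEmbedding j) := by
  intro h
  obtain ⟨p, hp, hp'⟩ := Finset.mem_map.1 h
  have := hO p hp
  simp only [addRightEmbedding_apply] at hp'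
  omega

theorem rk_shw_self (j : ℕ) (O : Finset ℕ) : rk (shw j O) j = 0 := by
  unfold rk shw
  rw [Finset.card_eq_zero, Finset.filter_eq_empty_iff]
  intro q hq
  rcases Finset.mem_insert.1 hq with h | h
  · omega
  · obtain ⟨p, _, hp'⟩ := Finset.mem_map.1 h
    simp only [addRightEmbedding_apply] at hp'
    omega

theorem rk_shw_add (j : ℕ) (O : Finset ℕ) (hO : ∀ p ∈ O, 1 ≤ p) (p : ℕ) (hp : p ∈ O) :
    rk (shw j O) (p + j) = rk O p + 1 := by
  have h1 : (shw j O).filter (fun q => q < p + j) = shw j (O.filter (fun q => q < p)) := by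
    ext q
    simp only [shw, Finset.mem_filter, Finset.mem_insert, Finset.mem_map,
      addRightEmbedding_apply]
    constructor
    · rintro ⟨h | ⟨a, ha, rfl⟩, hq⟩
      · exact Or.inl h
      · exact Or.inr ⟨a, ⟨ha, by omega⟩, rfl⟩
    · rintro (h | ⟨a, ⟨ha, ha'⟩, rfl⟩)
      · have := hO p hp
        exact ⟨Or.inl h, by omega⟩
      · exact ⟨Or.inr ⟨a, ha, rfl⟩, by omega⟩
  unfold rk
  rw [h1, shw, Finset.card_insert_of_notMem (notMem_shw j _ fun q hq =>
    hO q (Finset.mem_filter.1 hq).1), Finset.card_map]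

theorem FO_shw (n j : ℕ) (O : Finset ℕ) (hO : ∀ p ∈ O, 1 ≤ p) :
    FO n (shw j O) = (2 : ZMod (3 ^ n))⁻¹ ^ j * (1 + 3 * FO n O) := by
  have h0 : FO n (shw j O) = ∑ p ∈ insert j (O.map (addRightEmbedding j)),
      3 ^ rk (shw j O) p * (2 : ZMod (3 ^ n))⁻¹ ^ p := rfl
  rw [h0, Finset.sum_insert (notMem_shw j O hO), Finset.sum_map, rk_shw_self, pow_zero, one_mul,
    mul_add, mul_one]
  congr 1
  unfold FO
  rw [Finset.mul_sum, Finset.mul_sum]
  refine Finset.sum_congr rfl fun p hp => ?_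
  rw [addRightEmbedding_apply, rk_shw_add j O hO p hp]
  ring

theorem shw_inj (j : ℕ) (O O' : Finset ℕ) (hO : ∀ p ∈ O, 1 ≤ p) (hO' : ∀ p ∈ O', 1 ≤ p)
    (h : shw j O = shw j O') : O = O' := by
  have h1 : O.map (addRightEmbedding j) = O'.map (addRightEmbedding j) := by
    have h2 := congrArg (fun S => Finset.erase S j) h
    simp only [shw] at h2
    rwa [Finset.erase_insert (notMem_shw j O hO), Finset.erase_insert (notMem_shw j O' hO')] at h2
  exact Finset.map_injective _ h1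

theorem two_mul_inv (n : ℕ) : (2 : ZMod (3 ^ n)) * (2 : ZMod (3 ^ n))⁻¹ = 1 := by
  have h := ZMod.coe_mul_inv_eq_one (n := 3 ^ n) 2
    (Nat.Coprime.pow_right n (by norm_num : Nat.Coprime 2 3))
  simpa using h

theorem cast_FO (N : ℕ) (O : Finset ℕ) :
    ZMod.castHom (pow_dvd_pow 3 (Nat.le_succ N)) (ZMod (3 ^ N)) (FO (N + 1) O) = FO N O := by
  have h2 : ZMod.castHom (pow_dvd_pow 3 (Nat.le_succ N)) (ZMod (3 ^ N)) (2 : ZMod (3 ^ (N + 1)))⁻¹
      = (2 : ZMod (3 ^ N))⁻¹ := by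
    have h3 := congrArg (ZMod.castHom (pow_dvd_pow 3 (Nat.le_succ N)) (ZMod (3 ^ N)))
      (two_mul_inv (N + 1))
    rw [map_mul, map_one, map_ofNat] at h3
    calc _ = ((2 : ZMod (3 ^ N)) * (2 : ZMod (3 ^ N))⁻¹) *
          ZMod.castHom (pow_dvd_pow 3 (Nat.le_succ N)) (ZMod (3 ^ N))
            (2 : ZMod (3 ^ (N + 1)))⁻¹ := by rw [two_mul_inv, one_mul]
      _ = (2 : ZMod (3 ^ N))⁻¹ * (2 * ZMod.castHom (pow_dvd_pow 3 (Nat.le_succ N)) (ZMod (3 ^ N))
            (2 : ZMod (3 ^ (N + 1)))⁻¹) := by ring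
      _ = _ := by rw [h3, mul_one]
  unfold FO
  rw [map_sum]
  refine Finset.sum_congr rfl fun p _ => ?_
  rw [map_mul, map_pow, map_pow, h2, map_ofNat]

theorem three_FO (N : ℕ) (b : ZMod (3 ^ N)) (O : Finset ℕ) (h : FO N O = b) :
    3 * FO (N + 1) O = 3 * ((b.val : ℕ) : ZMod (3 ^ (N + 1))) := by
  have h1 := cast_FO N O
  rw [h] at h1
  set a := FO (N + 1) O
  have ha : ((a.val : ℕ) : ZMod (3 ^ (N + 1))) = a := ZMod.natCast_zmod_val a
  have h2 : ((a.val : ℕ) : ZMod (3 ^ N)) = ((b.val : ℕ) : ZMod (3 ^ N)) := by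
    rw [ZMod.natCast_zmod_val b, ← h1]
    conv_rhs => rw [← ha]
    rw [map_natCast]
  rw [ZMod.natCast_eq_natCast_iff] at h2
  have h3 := h2.mul_left' 3
  rw [← pow_succ'] at h3
  have h4 := (ZMod.natCast_eq_natCast_iff _ _ _).2 h3
  push_cast at h4
  rw [← h4, ha]

theorem win : WinStmt := by
  classical
  intro N j b hj
  unfold cnt
  refine Finset.card_le_card_of_injOn (fun O => shw j O) ?_ ?_
  · intro O hO
    simp only [Finset.coe_filter, Finset.mem_powerset, Set.mem_setOf_eq, Set.mem_Ici] at hO ⊢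
    obtain ⟨hsub, hcard, hFO⟩ := hO
    have hO1 : ∀ p ∈ O, 1 ≤ p := fun p hp => (Finset.mem_Icc.1 (hsub hp)).1
    refine ⟨?_, ?_, ?_⟩
    · intro q hq
      rw [shw, Finset.mem_insert, Finset.mem_map] at hq
      rw [Finset.mem_Icc]
      rcases hq with h | ⟨p, hp, hp'⟩
      · omega
      · have := Finset.mem_Icc.1 (hsub hp)
        simp only [addRightEmbedding_apply] at hp'
        omega
    · rw [shw, Finset.card_insert_of_notMem (notMem_shw j O hO1), Finset.card_map]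
      omega
    · rw [FO_shw _ _ _ hO1, three_FO N b O hFO]
  · intro O hO O' hO' h
    simp only [Finset.coe_filter, Finset.mem_powerset, Set.mem_setOf_eq, Set.mem_Ici] at hO hO'
    exact shw_inj j O O' (fun p hp => (Finset.mem_Icc.1 (hO.1 hp)).1)
      (fun p hp => (Finset.mem_Icc.1 (hO'.1 hp)).1) h

end Pool.Agent.WIR.H94
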