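import Pool.Agent.WIR.StmtsE

/-! Squad WIR, row WMS: mass. -/

namespace Pool.Agent.WIR.H94

open scoped BigOperators
open Pool.Agent.WIR

theorem wms : HoeStmt → WmsStmt := by
  classical
  intro hoe m
  have hW : ∑ z, W m z = 3 ^ m / 2 ^ (3 * m) *
      ((((Finset.Icc 1 (3 * m)).powerset.filter (fun O => m ≤ O.card)).card : ℕ) : ℝ) := by
    rw [Finset.card_eq_sum_card_fiberwise (f := FO m) (t := (Finset.univ : Finset (ZMod (3 ^ m))))
      (fun _ _ => Finset.mem_univ _)]
    push_cast
    rw [Finset.mul_sum]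
    refine Finset.sum_congr rfl fun z _ => ?_
    unfold W cnt
    congr 2
    congr 1
    ext O
    simp only [Finset.mem_filter, Set.mem_Ici]
    tauto
  have htot : (((Finset.Icc 1 (3 * m)).powerset.filter (fun O => m ≤ O.card)).card : ℝ)
      + (((Finset.Icc 1 (3 * m)).powerset.filter (fun O => ¬ m ≤ O.card)).card : ℝ)
      = 2 ^ (3 * m) := by
    have h := Finset.card_filter_add_card_filter_not (s := (Finset.Icc 1 (3 * m)).powerset)
      (fun O => m ≤ O.card)
    rw [Finset.card_powerset, Nat.card_Icc, Nat.add_sub_cancel] at h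
    exact_mod_cast h
  have hsmall : (((Finset.Icc 1 (3 * m)).powerset.filter (fun O => ¬ m ≤ O.card)).card : ℝ)
      ≤ 2 ^ (3 * m) * Real.exp (-((m : ℝ) / 6)) := by
    rcases Nat.eq_zero_or_pos m with rfl | hm
    · simp
    · have h1 := (hoe (3 * m) m (by omega) (Nat.cast_nonneg _)).2
      have h2 : (m : ℝ) ^ 2 / (2 * ((3 * m : ℕ) : ℝ)) = (m : ℝ) / 6 := by
        have : (m : ℝ) ≠ 0 := by positivity
        push_cast
        field_simp
        norm_num
      rw [h2] at h1
      refine le_trans ?_ h1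
      have h3 := Finset.sum_powerset_apply_card (fun r => if ¬ m ≤ r then (1 : ℕ) else 0)
        (x := Finset.Icc 1 (3 * m))
      rw [Nat.card_Icc, Nat.add_sub_cancel] at h3
      rw [Finset.card_filter, h3]
      push_cast
      rw [Finset.sum_filter]
      refine Finset.sum_le_sum fun r hr => ?_
      by_cases hrm : m ≤ r
      · simp only [hrm, not_true_eq_false, if_false, smul_zero]
        split_ifs
        · exact_mod_cast Nat.zero_le _
        · simp
      · have h4 : (m : ℝ) ≤ 3 * (m : ℝ) - 2 * (r : ℝ) := by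
          have h5 : (r : ℝ) + 1 ≤ m := by exact_mod_cast (by omega : r + 1 ≤ m)
          linarith
        simp [hrm, h4]
  have hc : (0 : ℝ) < 3 ^ m / 2 ^ (3 * m) := by positivity
  have h2p : (0 : ℝ) < 2 ^ (3 * m) := by positivity
  refine ⟨fun z => by unfold W; positivity, ?_, ?_⟩
  · rw [hW]
    have h1 : (((Finset.Icc 1 (3 * m)).powerset.filter (fun O => m ≤ O.card)).card : ℝ)
        ≤ 2 ^ (3 * m) := by
      have h0 : (0 : ℝ) ≤
        (((Finset.Icc 1 (3 * m)).powerset.filter (fun O => ¬ m ≤ O.card)).card : ℝ) :=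
        Nat.cast_nonneg _
      linarith
    calc _ ≤ 3 ^ m / 2 ^ (3 * m) * (2 : ℝ) ^ (3 * m) := mul_le_mul_of_nonneg_left h1 hc.le
      _ = 3 ^ m := div_mul_cancel₀ _ h2p.ne'
  · rw [hW]
    have h1 : (1 - Real.exp (-((m : ℝ) / 6))) * 2 ^ (3 * m) ≤
        (((Finset.Icc 1 (3 * m)).powerset.filter (fun O => m ≤ O.card)).card : ℝ) := by
      linarith
    calc (1 - Real.exp (-((m : ℝ) / 6))) * 3 ^ m
        = 3 ^ m / 2 ^ (3 * m) * ((1 - Real.exp (-((m : ℝ) / 6))) * 2 ^ (3 * m)) := by
          field_simp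
      _ ≤ _ := mul_le_mul_of_nonneg_left h1 hc.le

end Pool.Agent.WIR.H94
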